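import Pool.Agent.H72.PRK.S2
import Pool.Agent.H49.TOW.LOCC

/-!
# PRK, row CPLK: the completions
-/

set_option autoImplicit false

namespace Pool.PRK

open Polynomial Pool.HYP Pool.TOW Pool.AVS Pool.T1 IsDedekindDomain

namespace Cplk88

variable {K L : Type} [Field K] [Field L] {O : ValuationSubring L} {ι : K →+* L}

theorem unit_iff (z : O) : IsUnit z ↔ ((z : L))⁻¹ ∈ O ∧ (z : L) ≠ 0 := by
  constructor
  · rintro ⟨u, rfl⟩
    have h1 : ((u : O) : L) * ((u⁻¹ : Oˣ) : O) = 1 := by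
      have := congrArg (fun z : O => (z : L)) u.mul_inv
      exact this
    refine ⟨?_, left_ne_zero_of_mul_eq_one h1⟩
    rw [inv_eq_of_mul_eq_one_right h1]
    exact ((u⁻¹ : Oˣ) : O).2
  · rintro ⟨h1, h2⟩
    exact IsUnit.of_mul_eq_one ⟨_, h1⟩ (Subtype.ext (mul_inv_cancel₀ h2))

/-- Completions are as required in `Loc`. -/
theorem loc_gen {p : ℕ} (hp : p.Prime) (hK : CharP K p) (h2 : (2 : K) ≠ 0)
    (hcpl : Cpl K L O ι) (π : L) (hπ : π ∈ O) (hπ' : π⁻¹ ∉ O)
    (hunif : ∀ z : L, z ∈ O → z⁻¹ ∉ O → z / π ∈ O) : Loc L O π := by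
  have hdvr := hcpl.dvr
  have hπ0 : π ≠ 0 := by
    rintro rfl
    apply hπ'
    rw [inv_zero]
    exact O.zero_mem
  have hpf : Fact p.Prime := ⟨hp⟩
  set φ : ZMod p →+* L := ι.comp (ZMod.castHom dvd_rfl K) with hφ
  have hφ2 : φ 2 = 2 := map_ofNat _ _
  have hφ2' : φ (2⁻¹) = 2⁻¹ := by rw [map_inv₀, hφ2]
  have h20 : (2 : L) ≠ 0 := by
    have h3 : ι 2 = 2 := map_ofNat _ _
    rw [← h3]
    exact (_root_.map_ne_zero ι).2 h2
  have hmax : IsLocalRing.maximalIdeal O = Ideal.span {(⟨π, hπ⟩ : O)} := by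
    apply le_antisymm
    · intro z hz
      rw [Ideal.mem_span_singleton]
      have hz1 : ¬ IsUnit z := (IsLocalRing.mem_maximalIdeal _).1 hz
      by_cases hz0 : (z : L) = 0
      · have : z = 0 := Subtype.ext hz0
        rw [this]
        exact dvd_zero _
      · have hz2 : (z : L)⁻¹ ∉ O := fun h => hz1 ((unit_iff z).2 ⟨h, hz0⟩)
        refine ⟨⟨(z : L) / π, hunif z z.2 hz2⟩, Subtype.ext ?_⟩
        change (z : L) = π * ((z : L) / π)
        field_simp
    · rw [Ideal.span_le, Set.singleton_subset_iff]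
      exact (IsLocalRing.mem_maximalIdeal _).2 fun h => hπ' ((unit_iff _).1 h).1
  have hirr : Irreducible (⟨π, hπ⟩ : O) := IsDiscreteValuationRing.irreducible_of_span_eq_maximalIdeal
    _ (fun h => hπ0 (congrArg (fun z : O => (z : L)) h)) hmax
  have harch : ∀ z : O, z ≠ 0 → ∃ n : ℤ, (z : L) / π ^ n ∈ O ∧ ((z : L) / π ^ n)⁻¹ ∈ O := by
    intro z hz
    obtain ⟨n, u, hu⟩ := IsDiscreteValuationRing.eq_unit_mul_pow_irreducible hz hirr
    refine ⟨n, ?_⟩
    have h1 : (z : L) / π ^ (n : ℤ) = ((u : O) : L) := by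
      rw [hu]
      change ((u : O) : L) * π ^ n / π ^ (n : ℤ) = _
      rw [zpow_natCast]
      field_simp
    rw [h1]
    exact ⟨(u : O).2, ((unit_iff _).1 u.isUnit).1⟩
  refine ⟨⟨h20, ?_⟩, hπ0, hπ, ?_, ?_, ?_, hcpl.fin⟩
  · rw [← hφ2']
    exact Pool.TOW.Loc49.inv_mem_of_finite O φ _
  · intro x hx hx0
    refine ⟨hunif x hx, fun h h' => hπ' ?_⟩
    have : π⁻¹ = x⁻¹ * (x / π) := by field_simp
    rw [this]
    exact mul_mem h' h
  · intro x hx0
    rcases O.mem_or_inv_mem x with h | h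
    · exact harch ⟨x, h⟩ (fun h' => hx0 (congrArg (fun z : O => (z : L)) h'))
    · obtain ⟨n, hn1, hn2⟩ := harch ⟨x⁻¹, h⟩
        (fun h' => inv_ne_zero hx0 (congrArg (fun z : O => (z : L)) h'))
      refine ⟨-n, ?_⟩
      have h1 : x / π ^ (-n) = (x⁻¹ / π ^ n)⁻¹ := by
        rw [zpow_neg]
        field_simp
      rw [h1, inv_inv]
      exact ⟨hn2, hn1⟩
  · have := hcpl.complete
    have : HenselianRing O (IsLocalRing.maximalIdeal O) := inferInstance
    exact
      { is_henselian := fun f hf a₀ h₁ h₂ =>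
          HenselianRing.is_henselian f hf a₀ h₁ (h₂.map (Ideal.Quotient.mk _)) }

/-- If every element of `K` is a unit times a power of `π`. -/
theorem div_mem {π : K} (hπ : ι π ∈ O) (hπ' : (ι π)⁻¹ ∉ O)
    (hval : ∀ x : K, x ≠ 0 → ∃ n : ℤ, ι (x / π ^ n) ∈ O ∧ (ι (x / π ^ n))⁻¹ ∈ O) (x : K)
    (hx' : ι x = 0 ∨ (ι x)⁻¹ ∉ O) : ι x / ι π ∈ O := by
  have hι0 : ι π ≠ 0 := by
    intro h
    apply hπ'
    rw [h, inv_zero]
    exact O.zero_mem
  by_cases hx0 : ι x = 0
  · rw [hx0, zero_div]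
    exact O.zero_mem
  have hx' : (ι x)⁻¹ ∉ O := hx'.resolve_left hx0
  obtain ⟨n, h1, h2⟩ := hval x (fun h => hx0 (by rw [h, map_zero]))
  rw [map_div₀, map_zpow₀] at h1 h2
  rcases le_or_gt n 0 with hn | hn
  · exfalso
    apply hx'
    obtain ⟨k, hk⟩ : ∃ k : ℕ, n = -(k : ℤ) := ⟨n.natAbs, by omega⟩
    have h3 : (ι x)⁻¹ = (ι x / ι π ^ n)⁻¹ * ι π ^ k := by
      rw [hk, zpow_neg, zpow_natCast]
      field_simp
    rw [h3]
    exact mul_mem h2 (pow_mem hπ k)
  · obtain ⟨k, hk⟩ : ∃ k : ℕ, n = (k : ℤ) + 1 := ⟨(n - 1).natAbs, by omega⟩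
    have h3 : ι x / ι π = (ι x / ι π ^ n) * ι π ^ k := by
      rw [hk, zpow_add₀ hι0, zpow_natCast, zpow_one]
      field_simp
    rw [h3]
    exact mul_mem h1 (pow_mem hπ k)

/-- `1 + a` is a unit. -/
theorem one_sub {π w : L} (hπ : π ∈ O) (hπ' : π⁻¹ ∉ O) (hw : w ∈ O) :
    1 - π * w ∈ O ∧ (1 - π * w)⁻¹ ∈ O ∧ 1 - π * w ≠ 0 := by
  have h1 : 1 - π * w ∈ O := sub_mem (one_mem O) (mul_mem hπ hw)
  have h2 : (⟨π, hπ⟩ : O) ∈ IsLocalRing.maximalIdeal O := by
    rw [IsLocalRing.mem_maximalIdeal, mem_nonunits_iff]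
    intro h
    exact hπ' ((unit_iff _).1 h).1
  have h3 : IsUnit (1 - (⟨π, hπ⟩ : O) * ⟨w, hw⟩) := by
    by_contra h
    have h4 : (1 - (⟨π, hπ⟩ : O) * ⟨w, hw⟩) ∈ IsLocalRing.maximalIdeal O := by
      rw [IsLocalRing.mem_maximalIdeal, mem_nonunits_iff]
      exact h
    have h5 : (1 : O) ∈ IsLocalRing.maximalIdeal O := by
      have h6 : (1 : O) = (1 - (⟨π, hπ⟩ : O) * ⟨w, hw⟩) + ⟨w, hw⟩ * ⟨π, hπ⟩ := by ring
      rw [h6]
      exact Ideal.add_mem _ h4 (Ideal.mul_mem_left _ _ h2)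
    exact (IsLocalRing.mem_maximalIdeal _).1 h5 isUnit_one
  exact ⟨h1, (unit_iff _).1 h3⟩

theorem loc_val {p : ℕ} (hp : p.Prime) (hK : CharP K p) (h2 : (2 : K) ≠ 0)
    (hcpl : Cpl K L O ι) {π : K} (hπ : ι π ∈ O) (hπ' : (ι π)⁻¹ ∉ O)
    (hval : ∀ x : K, x ≠ 0 → ∃ n : ℤ, ι (x / π ^ n) ∈ O ∧ (ι (x / π ^ n))⁻¹ ∈ O) :
    Loc L O (ι π) := by
  have hι0 : ι π ≠ 0 := by
    intro h
    apply hπ'
    rw [h, inv_zero]
    exact O.zero_mem
  refine loc_gen hp hK h2 hcpl _ hπ hπ' fun z hz hz' => ?_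
  by_cases hz0 : z = 0
  · rw [hz0, zero_div]
    exact O.zero_mem
  obtain ⟨x, hx⟩ := hcpl.dense z (z * ι π) (mul_ne_zero hz0 hι0)
  set w : L := (z - ι x) / (z * ι π) with hw
  obtain ⟨h3, h4, h5⟩ := one_sub hπ hπ' hx
  have h6 : ι x = z * (1 - ι π * w) := by
    rw [hw]
    field_simp
    ring
  have h7 : (ι x)⁻¹ ∉ O := by
    intro h8
    apply hz'
    have h9 : z⁻¹ = (ι x)⁻¹ * (1 - ι π * w) := by
      rw [h6]
      field_simp
    rw [h9]
    exact mul_mem h8 h3
  have h8 := div_mem hπ hπ' hval x (Or.inr h7)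
  have h9 : z / ι π = ι x / ι π * (1 - ι π * w)⁻¹ := by
    rw [h6]
    field_simp
  rw [h9]
  exact mul_mem h8 h4

end Cplk88

open Cplk88 in
/-- CPLK. -/
theorem cplk : CPLKStmt := by
  intro R _ _ K _ _ _ O π H hO L _ O' ι hC
  have hdvr := hC.dvr
  obtain ⟨p, hp, hchar⟩ := H.char
  by_cases hR : ∃ a : R, ι (algebraMap R K a) ∉ O'
  · -- infinity
    right
    have hV : O'.comap ι = O := hO _ hR
    have hmem : ∀ x : K, ι x ∈ O' ↔ x ∈ O := by
      intro x
      rw [← hV]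
      exact Iff.rfl
    refine ⟨?_, hmem, hC⟩
    refine loc_val hp hchar H.two hC ((hmem _).2 H.pi_mem) ?_ ?_
    · rw [← map_inv₀, hmem]
      exact H.pi_inv
    · intro x hx
      obtain ⟨n, h1, h2⟩ := H.val x hx
      refine ⟨n, (hmem _).2 h1, ?_⟩
      rw [← map_inv₀, hmem]
      exact h2
  · -- a prime
    left
    push Not at hR
    have hinj : Function.Injective (algebraMap R K) := IsFractionRing.injective R K
    let φ : R →+* O' := (ι.comp (algebraMap R K)).codRestrict O'.toSubring hR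
    have hφ : ∀ a : R, ((φ a : O') : L) = ι (algebraMap R K a) := fun _ => rfl
    set I : Ideal R := (IsLocalRing.maximalIdeal O').comap φ with hI
    have hIp : I.IsPrime := Ideal.IsPrime.comap φ
    have hmI : ∀ a : R, a ∈ I ↔ ι (algebraMap R K a) = 0 ∨ (ι (algebraMap R K a))⁻¹ ∉ O' := by
      intro a
      rw [hI, Ideal.mem_comap, IsLocalRing.mem_maximalIdeal, mem_nonunits_iff, unit_iff, hφ]
      tauto
    have hI0 : I ≠ ⊥ := by
      intro h
      -- every element of `K` is in `O'`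
      have h1 : ∀ x : K, ι x ∈ O' := by
        intro x
        obtain ⟨a, b, hb, rfl⟩ := IsFractionRing.div_surjective (A := R) x
        have hb0 : b ≠ 0 := nonZeroDivisors.ne_zero hb
        rw [map_div₀, div_eq_mul_inv]
        refine mul_mem (hR a) ?_
        have h2 : b ∉ I := by
          rw [h]
          exact hb0
        rw [hmI] at h2
        tauto
      have h2 : ∀ z : L, z ∈ O' := by
        intro z
        obtain ⟨x, hx⟩ := hC.dense z 1 one_ne_zero
        have h3 : z = (z - ι x) / 1 + ι x := by ring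
        rw [h3]
        exact add_mem hx (h1 x)
      apply IsDiscreteValuationRing.not_isField O'
      refine ⟨⟨0, 1, zero_ne_one⟩, mul_comm, ?_⟩
      intro a ha
      exact ⟨⟨(a : L)⁻¹, h2 _⟩, Subtype.ext (mul_inv_cancel₀ fun h => ha (Subtype.ext h))⟩
    let P : HeightOneSpectrum R := ⟨I, hIp, hI0⟩
    obtain ⟨ϖ, h1, h2⟩ : ∃ ϖ : R, ϖ ∈ P.asIdeal ∧ ϖ ∉ P.asIdeal ^ 2 := by
      obtain ⟨x, hx, hx'⟩ := Ideal.exists_mem_pow_notMem_pow_succ P.asIdeal P.ne_bot
        P.isPrime.ne_top 1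
      exact ⟨x, by rwa [pow_one] at hx, hx'⟩
    have hϖ0 : ϖ ≠ 0 := by
      rintro rfl
      exact h2 (Ideal.zero_mem _)
    have hϖK : ι (algebraMap R K ϖ) ≠ 0 := by
      rw [Ne, _root_.map_eq_zero, map_eq_zero_iff _ hinj]
      exact hϖ0
    -- an element outside `P`
    obtain ⟨b, hb, hb'⟩ : ∃ b : R, b ∉ I ∧ ∀ a ∈ I, ϖ ∣ b * a := by
      obtain ⟨J, hJ⟩ : I ∣ Ideal.span {ϖ} := by
        rw [Ideal.dvd_iff_le, Ideal.span_le, Set.singleton_subset_iff]
        exact h1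
      have hJP : ¬ J ≤ I := by
        intro h3
        apply h2
        have h4 : ϖ ∈ I * J := by
          rw [← hJ]
          exact Ideal.mem_span_singleton_self ϖ
        change ϖ ∈ I ^ 2
        rw [pow_two]
        exact Ideal.mul_mono_right h3 h4
      obtain ⟨b, hb, hb'⟩ := SetLike.not_le_iff_exists.1 hJP
      refine ⟨b, hb', fun a ha => ?_⟩
      rw [← Ideal.mem_span_singleton, hJ, mul_comm b a]
      exact Ideal.mul_mem_mul ha hb
    have hbn : ∀ n : ℕ, ∀ a ∈ I ^ n, ϖ ^ n ∣ b ^ n * a := by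
      intro n
      induction n with
      | zero =>
        intro a _
        rw [pow_zero]
        exact one_dvd _
      | succ n ih =>
        intro a ha
        rw [pow_succ] at ha
        refine Submodule.mul_induction_on ha ?_ ?_
        · intro x hx y hy
          have h3 : b ^ (n + 1) * (x * y) = (b ^ n * x) * (b * y) := by ring
          rw [h3, pow_succ]
          exact mul_dvd_mul (ih x hx) (hb' y hy)
        · intro x y hx hy
          rw [mul_add]
          exact dvd_add hx hy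
    have hunit : ∀ a : R, a ∉ I → ι (algebraMap R K a) ∈ O' ∧ (ι (algebraMap R K a))⁻¹ ∈ O' ∧
        ι (algebraMap R K a) ≠ 0 := by
      intro a ha
      rw [hmI] at ha
      push Not at ha
      exact ⟨hR a, ha.2, ha.1⟩
    have hvR : ∀ a : R, a ≠ 0 → ∃ (n : ℕ) (u : L), u ∈ O' ∧ u⁻¹ ∈ O' ∧ u ≠ 0 ∧
        ι (algebraMap R K a) = u * ι (algebraMap R K ϖ) ^ n := by
      intro a ha
      obtain ⟨n, hn, hn'⟩ : ∃ n : ℕ, a ∈ I ^ n ∧ a ∉ I ^ (n + 1) := by
        have h3 : ∃ n : ℕ, a ∉ I ^ n := by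
          by_contra h4
          push Not at h4
          have h5 : P.intValuation a = 0 := by
            by_contra h6
            obtain ⟨k, hk⟩ : ∃ k : ℤ, P.intValuation a = WithZero.exp k :=
              ⟨WithZero.log _, (WithZero.exp_log h6).symm⟩
            have h7 := (HeightOneSpectrum.intValuation_le_pow_iff_mem P a
              ((-k).toNat + 1)).2 (h4 _)
            rw [hk, WithZero.exp_le_exp] at h7
            push_cast at h7
            omega
          exact P.intValuation_ne_zero a ha h5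
        classical
        have h5 := Nat.find_spec h3
        have h6 : Nat.find h3 ≠ 0 := by
          intro h7
          rw [h7, pow_zero, Ideal.one_eq_top] at h5
          exact h5 Submodule.mem_top
        obtain ⟨n, hn⟩ := Nat.exists_eq_succ_of_ne_zero h6
        refine ⟨n, ?_, ?_⟩
        · have h8 := Nat.find_min h3 (m := n) (by omega)
          simpa using h8
        · rw [hn] at h5
          exact h5
      obtain ⟨c, hc⟩ := hbn n a hn
      have hcI : c ∉ I := by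
        intro h3
        have h4 : b ^ n * a ∈ I ^ (n + 1) := by
          rw [hc, pow_succ]
          exact Ideal.mul_mem_mul (Ideal.pow_mem_pow h1 n) h3
        rcases Ideal.IsPrime.mul_mem_pow I h4 with h5 | h5
        · exact hb (hIp.mem_of_pow_mem n h5)
        · exact hn' h5
      have hbI : b ^ n ∉ I := fun h => hb (hIp.mem_of_pow_mem n h)
      obtain ⟨u1, u2, u3⟩ := hunit c hcI
      obtain ⟨v1, v2, v3⟩ := hunit _ hbI
      refine ⟨n, ι (algebraMap R K c) * (ι (algebraMap R K (b ^ n)))⁻¹, mul_mem u1 v2, ?_,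
        mul_ne_zero u3 (inv_ne_zero v3), ?_⟩
      · rw [mul_inv, inv_inv]
        exact mul_mem u2 v1
      · have h3 := congrArg (fun x => ι (algebraMap R K x)) hc
        simp only [map_mul, map_pow] at h3 v3 ⊢
        field_simp
        linear_combination h3
    have hval : ∀ x : K, x ≠ 0 → ∃ n : ℤ, ι (x / algebraMap R K ϖ ^ n) ∈ O' ∧
        (ι (x / algebraMap R K ϖ ^ n))⁻¹ ∈ O' := by
      intro x hx
      obtain ⟨a, d, hd, rfl⟩ := IsFractionRing.div_surjective (A := R) x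
      have hd0 : d ≠ 0 := nonZeroDivisors.ne_zero hd
      have ha0 : a ≠ 0 := by
        rintro rfl
        exact hx (by rw [map_zero, zero_div])
      obtain ⟨n, u, u1, u2, u3, u4⟩ := hvR a ha0
      obtain ⟨m, v, v1, v2, v3, v4⟩ := hvR d hd0
      refine ⟨(n : ℤ) - m, ?_⟩
      have h3 : ι (algebraMap R K a / algebraMap R K d / algebraMap R K ϖ ^ ((n : ℤ) - m)) =
          u * v⁻¹ := by
        rw [map_div₀, map_div₀, map_zpow₀, u4, v4, zpow_sub₀ hϖK, zpow_natCast, zpow_natCast]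
        field_simp
      rw [h3]
      refine ⟨mul_mem u1 v2, ?_⟩
      rw [mul_inv, inv_inv]
      exact mul_mem u2 v1
    have hπ' : (ι (algebraMap R K ϖ))⁻¹ ∉ O' := ((hmI ϖ).1 h1).resolve_left hϖK
    refine ⟨P, ϖ, h1, h2, ⟨loc_val hp hchar H.two hC (hR ϖ) hπ' hval, hR, ?_, hC⟩⟩
    intro a
    constructor
    · intro h3
      change a ∈ I
      rw [hmI]
      by_cases h4 : ι (algebraMap R K a) = 0
      · exact Or.inl h4
      · right
        intro h5
        apply hπ'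
        have h6 : (ι (algebraMap R K ϖ))⁻¹ = (ι (algebraMap R K a) / ι (algebraMap R K ϖ)) *
            (ι (algebraMap R K a))⁻¹ := by
          field_simp
        rw [h6]
        exact mul_mem h3 h5
    · intro h3
      exact div_mem (hR ϖ) hπ' hval _ ((hmI a).1 h3)

end Pool.PRK
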