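import Pool.Agent.H72.PRK.S2
import Pool.Agent.H54.T1.LDAK
import Pool.Agent.H33.HYP.TWS

/-!
# PRK, row LU2K: classes of units are classes of divisors
-/

set_option autoImplicit false

namespace Pool.PRK

open Polynomial Pool.HYP Pool.TOW Pool.AVS Pool.T1 IsDedekindDomain

/-- LU2K. -/
theorem lu2k (hN : NMUStmt) (h : LULKStmt) : LU2KStmt := by
  intro R _ _ K _ _ _ P ϖ L _ O' ι HC f d α hf hodd hd hα hn hUS
  obtain ⟨s, p, hs, hp, hcop⟩ := hUS
  let φ : R →+* O' := (ι.comp (algebraMap R K)).codRestrict O'.toSubring HC.int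
  have hφ : ∀ a : R, ((φ a : O') : L) = ι (algebraMap R K a) := fun _ => rfl
  have hoL : ∀ q : R[X], oL O' (q.map φ) = (fk K q).map ι := by
    intro q
    change (q.map φ).map _ = _
    rw [Polynomial.map_map, Polynomial.map_map]
    rfl
  have hU := LdakAux.ui_of HC hd
  set δ : L := ι (algebraMap R K d) with hδ
  have hδ0 : δ ≠ 0 := hU.1
  have hδi : δ⁻¹ ∈ O' := hU.2.2
  let D' : O' := ⟨δ⁻¹, hδi⟩
  have hDD : φ d * D' = 1 := Subtype.ext (mul_inv_cancel₀ hδ0)
  -- the residue field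
  let ρ : R →+* IsLocalRing.ResidueField O' := (IsLocalRing.residue O').comp φ
  have hρ : ∀ a ∈ P.asIdeal, ρ a = 0 := by
    intro a ha
    have h1 := (HC.mem a).2 ha
    change IsLocalRing.residue O' (φ a) = 0
    rw [IsLocalRing.residue_eq_zero_iff, IsLocalRing.mem_maximalIdeal, mem_nonunits_iff]
    rintro ⟨u, hu⟩
    have h2 : ((u : O') : L) * ((u⁻¹ : O'ˣ) : O') = 1 := by
      have := congrArg (fun z : O' => (z : L)) u.mul_inv
      exact this
    rw [hu, hφ] at h2
    have hpi := HC.loc.pi_ne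
    have h3 : (ι (algebraMap R K ϖ))⁻¹ ∈ O' := by
      have h4 : (ι (algebraMap R K ϖ))⁻¹ = (ι (algebraMap R K a) / ι (algebraMap R K ϖ)) *
          (((u⁻¹ : O'ˣ) : O') : L) := by
        rw [div_mul_eq_mul_div, h2, one_div]
      rw [h4]
      exact mul_mem h1 (SetLike.coe_mem _)
    have h5 := (HC.loc.unif _ HC.loc.pi_mem hpi).2 (by rw [div_self hpi]; exact one_mem O')
    exact h5 h3
  let σ : (R ⧸ P.asIdeal) →+* IsLocalRing.ResidueField O' := Ideal.Quotient.lift P.asIdeal ρ hρ
  have hrd : ∀ q : R[X], rd O' (q.map φ) = (md P.asIdeal q).map σ := by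
    intro q
    change (q.map φ).map _ = (q.map _).map σ
    rw [Polynomial.map_map, Polynomial.map_map]
    congr 1
  have hc1 : IsCoprime (rd O' (p.map φ)) (rd O' (f.map φ)) := by
    rw [hrd, hrd]
    exact hcop.map (mapRingHom σ)
  set F : O'[X] := (f.scaleRoots d).map φ with hF
  set q : O'[X] := (p.map φ).comp (C D' * X) with hq
  have hfs : (f.scaleRoots d).Monic := (monic_scaleRoots_iff d).2 hf
  have hFm : F.Monic := hfs.map φ
  have hFd : F.natDegree = f.natDegree := by
    rw [hF, hfs.natDegree_map, natDegree_scaleRoots]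
  -- coprime
  set r := IsLocalRing.residue O' with hr
  have hr1 : r (φ d) * r D' = 1 := by rw [← map_mul, hDD, map_one]
  have hr0 : r (φ d) ≠ 0 := left_ne_zero_of_mul_eq_one hr1
  have hr0' : r D' ≠ 0 := right_ne_zero_of_mul_eq_one hr1
  have hFr : rd O' F = (rd O' (f.map φ)).scaleRoots (r (φ d)) := by
    have h1 : F = (f.map φ).scaleRoots (φ d) := by
      rw [hF]
      refine map_scaleRoots f d φ ?_
      rw [hf.leadingCoeff, map_one]
      exact one_ne_zero
    rw [h1]
    refine map_scaleRoots _ _ _ ?_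
    rw [(hf.map φ).leadingCoeff, map_one]
    exact one_ne_zero
  have hcX : ∀ z : (IsLocalRing.ResidueField O')[X],
      (z.comp (C (r (φ d)) * X)).comp (C (r D') * X) = z := by
    intro z
    rw [comp_assoc, mul_comp, C_comp, X_comp, ← mul_assoc, ← C_mul, hr1, C_1, one_mul, comp_X]
  have hc2 : IsCoprime (rd O' q) (rd O' F) := by
    have h1 : rd O' q = (rd O' (p.map φ)).comp (C (r D') * X) := by
      change ((p.map φ).comp (C D' * X)).map _ = _
      rw [map_comp, Polynomial.map_mul, map_C, map_X]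
    have h2 : rd O' F = C (r (φ d) ^ (rd O' (f.map φ)).natDegree) *
        (rd O' (f.map φ)).comp (C (r D') * X) := by
      have h3 := Pool.HYP.H33.comp_scale (rd O' (f.map φ)) (r (φ d))
      have h4 := congrArg (fun z => z.comp (C (r D') * X)) h3
      simp only [mul_comp, C_comp] at h4
      rw [← h4, hFr, hcX]
    rw [h1, h2]
    have h3 := hc1.map (Pool.HYP.H33.scE (r D') hr0').toRingEquiv.toRingHom
    have h4 : IsCoprime ((rd O' (p.map φ)).comp (C (r D') * X))
        ((rd O' (f.map φ)).comp (C (r D') * X)) := h3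
    exact (isCoprime_mul_unit_left_right
      (isUnit_C.2 (isUnit_iff_ne_zero.2 (pow_ne_zero _ hr0))) _ _).2 h4
  -- over `L`
  set G : L[X] := (fk K f).map ι with hG
  have hFL : oL O' F = G.scaleRoots δ := by
    rw [hF, hoL, LdakAux.fk_scale f hf d]
  have hqL : (oL O' q).comp (C δ * X) = (fk K p).map ι := by
    have h1 : oL O' q = ((fk K p).map ι).comp (C δ⁻¹ * X) := by
      rw [← hoL]
      change ((p.map φ).comp (C D' * X)).map _ = _
      rw [map_comp, Polynomial.map_mul, map_C, map_X]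
      rfl
    rw [h1, comp_assoc, mul_comp, C_comp, X_comp, ← mul_assoc, ← C_mul, inv_mul_cancel₀ hδ0, C_1,
      one_mul, comp_X]
  have hnp : NSq (fk K f) (fk K p) := by
    have h1 : AdjoinRoot.mk (fk K f) (fk K p) = AdjoinRoot.mk (fk K f) (α * s ^ 2) := by
      rw [eq_comm, AdjoinRoot.mk_eq_mk]
      exact hp
    unfold NSq
    rw [h1, map_mul, map_mul, map_pow, map_pow]
    exact hn.mul (IsSquare.sq _)
  have hnL : NSq (oL O' F) (oL O' q) := by
    unfold NSq
    rw [hFL, ← Pool.HYP.H33.norm_scale _ _ _ hδ0, hqL, hG, hN.2.2.2 _ _ ι _ _ (hf.map _)]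
    exact hnp.map ι
  obtain ⟨u, w, s', hu, hc, hw, hdv⟩ := h L O' (ι (algebraMap R K ϖ)) HC.loc HC.cpl.complete F q
    hFm (by rw [hFd]; exact hodd) hc2 hnL
  have hfs' : (fk K (f.scaleRoots d)).map ι = G.scaleRoots δ := LdakAux.fk_scale f hf d
  refine ⟨u, w, s'.comp (C δ * X) * s.map ι, hu, ?_, ?_, ?_⟩
  · rw [hfs', ← hFL]
    exact hc
  · rw [hfs', ← hFL]
    exact hw
  · rw [hFL, ← Pool.HYP.H33.dvd_scale _ _ _ hδ0, sub_comp, mul_comp, mul_comp, pow_comp, pow_comp,
      neg_comp, one_comp, hqL] at hdv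
    have hdeg : (u.comp (C δ * X)).natDegree = u.natDegree := by
      rw [natDegree_comp, natDegree_C_mul_X _ hδ0, mul_one]
    have h1 : G ∣ α.map ι * (s.map ι) ^ 2 - (fk K p).map ι := by
      have h2 := Polynomial.map_dvd ι hp
      rw [Polynomial.map_sub, Polynomial.map_mul, Polynomial.map_pow] at h2
      exact h2
    have h2 : kap (u.comp (C δ * X)) - α.map ι * (s'.comp (C δ * X) * s.map ι) ^ 2 =
        ((-1) ^ u.natDegree * u.comp (C δ * X) - (fk K p).map ι * s'.comp (C δ * X) ^ 2) -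
        (α.map ι * (s.map ι) ^ 2 - (fk K p).map ι) * s'.comp (C δ * X) ^ 2 := by
      unfold Pool.HYP.kap
      rw [hdeg]
      ring
    rw [h2]
    exact dvd_sub hdv (h1.mul_right _)

end Pool.PRK
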